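import Pool.Agent.H15.HLS.Targets

/-!
# hls_modules BLK: the glued square on a block
-/

set_option autoImplicit false

namespace Pool.Agent.H61.HLS

open Pool.Agent.H15.HLS

section

variable {v : ℕ} {W T : Type} {g : T → ZMod v}

lemma keyC (A : ∀ c, W ⊕ Fib g c → W ⊕ Fib g c → W ⊕ Fib g c) (z : ZMod v) (i : W) (t : T)
    (c0 : ZMod v) (h0 : g t = c0) :
    (emb z (g t) (A (g t) (Sum.inl i) (Sum.inr ⟨t, rfl⟩)) : (ZMod v × W) ⊕ T) =
      emb z c0 (A c0 (Sum.inl i) (Sum.inr ⟨t, h0⟩)) := by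
  subst h0
  rfl

lemma keyR (A : ∀ c, W ⊕ Fib g c → W ⊕ Fib g c → W ⊕ Fib g c) (z : ZMod v) (j : W) (s : T)
    (c0 : ZMod v) (h0 : g s = c0) :
    (emb z (g s) (A (g s) (Sum.inr ⟨s, rfl⟩) (Sum.inl j)) : (ZMod v × W) ⊕ T) =
      emb z c0 (A c0 (Sum.inr ⟨s, h0⟩) (Sum.inl j)) := by
  subst h0
  rfl

end

theorem pf_BLK : T_BLK := by
  intro v W T g q A M hq x y r c hh
  rcases r with i | ⟨s, hs⟩
  · rcases c with j | ⟨t, ht⟩
    · rfl
    · have h1 : x + (g t - x) * q = x + y := by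
        rw [ht]
        linear_combination y * hq
      change emb (x + (g t - x) * q) (g t) (A (g t) (Sum.inl i) (Sum.inr ⟨t, rfl⟩)) = _
      rw [h1]
      exact keyC A (x + y) i t (x + 3 * y) ht
  · rcases c with j | ⟨t, ht⟩
    · have h1 : g s - 3 * y + y = x + y := by
        rw [hs]
        ring
      change emb (g s - 3 * y + y) (g s) (A (g s) (Sum.inr ⟨s, rfl⟩) (Sum.inl j)) = _
      rw [h1]
      exact keyR A (x + y) j s (x + 3 * y) hs
    · exact absurd ⟨rfl, rfl⟩ hh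

end Pool.Agent.H61.HLS
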